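import Pool.Agent.Helper2.WK.M_Pl1

/-!
# Project WK, module Gr: the grid argument
-/

set_option autoImplicit false

open Pool.Agent.Helper14.CV Pool.Agent.Helper28.WK

namespace Pool.Agent.Helper2.WK

/-- Polynomial functions on the integers. -/
private def IsP {K : Type} [Field K] (u : ℤ → K) : Prop :=
  ∃ f : Polynomial K, ∀ b : ℤ, u b = f.eval (b : K)

/-- Quasi-polynomial functions of period `p` and sum zero. -/
private def IsQ {K : Type} [Field K] (p : ℕ) (u : ℤ → K) : Prop :=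
  ∃ r : ℤ → Polynomial K, (∀ x : ℤ, r (x + p) = r x) ∧
    (∑ i ∈ Finset.range p, r (i : ℤ)) = 0 ∧ ∀ x : ℤ, u x = (r x).eval (x : K)

private theorem IsP.smul {K : Type} [Field K] {u : ℤ → K} (h : IsP u) (c : ℤ) :
    IsP (fun x => c • u x) := by
  obtain ⟨f, hf⟩ := h
  exact ⟨c • f, fun b => by beta_reduce; rw [hf b, Polynomial.eval_smul]⟩

private theorem IsP.sum {K : Type} [Field K] {ι : Type} (s : Finset ι) {u : ι → ℤ → K}
    (h : ∀ i ∈ s, IsP (u i)) : IsP (fun x => ∑ i ∈ s, u i x) := by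
  classical
  induction s using Finset.induction_on with
  | empty => exact ⟨0, fun b => by simp⟩
  | insert i s hi ih =>
    obtain ⟨f, hf⟩ := h i (Finset.mem_insert_self i s)
    obtain ⟨g, hg⟩ := ih fun j hj => h j (Finset.mem_insert_of_mem hj)
    refine ⟨f + g, fun b => ?_⟩
    have hb := hg b
    beta_reduce at hb ⊢
    rw [Finset.sum_insert hi, hf b, hb, Polynomial.eval_add]

private theorem IsQ.smul {K : Type} [Field K] {p : ℕ} {u : ℤ → K} (h : IsQ p u) (c : ℤ) :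
    IsQ p (fun x => c • u x) := by
  obtain ⟨r, h1, h2, h3⟩ := h
  refine ⟨fun x => c • r x, fun x => by beta_reduce; rw [h1 x], ?_, fun x => by
    beta_reduce; rw [h3 x, Polynomial.eval_smul]⟩
  rw [← Finset.smul_sum, h2, smul_zero]

private theorem IsQ.sum {K : Type} [Field K] {p : ℕ} {ι : Type} (s : Finset ι) {u : ι → ℤ → K}
    (h : ∀ i ∈ s, IsQ p (u i)) : IsQ p (fun x => ∑ i ∈ s, u i x) := by
  classical
  induction s using Finset.induction_on with
  | empty => exact ⟨fun _ => 0, fun _ => rfl, by simp, fun b => by simp⟩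
  | insert i s hi ih =>
    obtain ⟨f, f1, f2, f3⟩ := h i (Finset.mem_insert_self i s)
    obtain ⟨g, g1, g2, g3⟩ := ih fun j hj => h j (Finset.mem_insert_of_mem hj)
    refine ⟨fun x => f x + g x, fun x => by beta_reduce; rw [f1, g1], ?_, fun b => ?_⟩
    · rw [Finset.sum_add_distrib, f2, g2, add_zero]
    · have hb := g3 b
      beta_reduce at hb ⊢
      rw [Finset.sum_insert hi, f3 b, hb, Polynomial.eval_add]

private theorem per_mul {K : Type} [Field K] {p : ℕ} {r : ℤ → Polynomial K}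
    (h1 : ∀ x : ℤ, r (x + p) = r x) (i : ℤ) (n : ℕ) : r (i + n * p) = r i := by
  induction n with
  | zero => simp
  | succ n ih =>
    rw [← ih, ← h1 (i + n * p)]
    congr 1
    push_cast
    ring

/-- A polynomial which is a quasi-polynomial of sum zero vanishes. -/
private theorem zero_of {K : Type} [Field K] [CharZero K] {p : ℕ} (hp : p ≠ 0) {u : ℤ → K}
    (hP : IsP u) (hQ : IsQ p u) (x : ℤ) : u x = 0 := by
  obtain ⟨f, hf⟩ := hP
  obtain ⟨r, h1, h2, h3⟩ := hQ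
  have key : ∀ i : ℤ, f = r i := by
    intro i
    refine Polynomial.eq_of_infinite_eval_eq f (r i) ?_
    have hinj : Function.Injective (fun n : ℕ => ((i + n * p : ℤ) : K)) := by
      intro m n hmn
      have h4 : (i + m * p : ℤ) = i + n * p := Int.cast_injective hmn
      have h5 : (m : ℤ) * p = n * p := by linarith
      have h6 : (p : ℤ) ≠ 0 := by exact_mod_cast hp
      exact_mod_cast mul_right_cancel₀ h6 h5
    refine Set.Infinite.mono ?_ (Set.infinite_range_of_injective hinj)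
    rintro _ ⟨n, rfl⟩
    simp only [Set.mem_ofPred_eq]
    rw [← hf (i + n * p), h3 (i + n * p), per_mul h1]
  have h4 : (∑ i ∈ Finset.range p, f) = 0 := by
    rw [← h2]
    exact Finset.sum_congr rfl fun i _ => key i
  rw [Finset.sum_const, Finset.card_range] at h4
  have h5 : f = 0 := by
    rcases smul_eq_zero.1 h4 with h | h
    · exact absurd h hp
    · exact h
  rw [hf x, h5, Polynomial.eval_zero]

private theorem lim0 {p : ℕ} [hp : Fact p.Prime] (z : ℚ_[p]) (K : ℝ)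
    (h : ∀ L : ℕ, 2 ≤ L → ‖z‖ ≤ K * ((p : ℝ) ^ L)⁻¹) : z = 0 := by
  have h1 : Filter.Tendsto (fun L : ℕ => K * ((p : ℝ) ^ L)⁻¹) Filter.atTop (nhds (K * 0)) := by
    refine Filter.Tendsto.const_mul K ?_
    exact (tendsto_pow_atTop_atTop_of_one_lt (by exact_mod_cast hp.out.one_lt)).inv_tendsto_atTop
  rw [mul_zero] at h1
  have h2 : ‖z‖ ≤ 0 := ge_of_tendsto h1 (Filter.eventually_atTop.2 ⟨2, fun L hL => h L hL⟩)
  exact norm_le_zero_iff.1 h2

private theorem norm_dvd {p : ℕ} [hp : Fact p.Prime] (L : ℕ) (z : ℤ_[p])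
    (h : (p : ℤ_[p]) ^ L ∣ z) : ‖(z : ℚ_[p])‖ ≤ ((p : ℝ) ^ L)⁻¹ := by
  obtain ⟨t, rfl⟩ := h
  rw [← PadicInt.norm_def, norm_mul, PadicInt.norm_p_pow, zpow_neg, zpow_natCast]
  have : (0 : ℝ) ≤ ((p : ℝ) ^ L)⁻¹ := by positivity
  exact mul_le_of_le_one_right this (PadicInt.norm_le_one t)

private theorem ex_inv (p ν : ℕ) (hν : 1 ≤ ν) (L : ℕ) (x y : ℤ) :
    ∃ u : ℤ, (p : ℤ) ^ L ∣ u * (1 - (p : ℤ) ^ ν * x * y) - 1 := by
  have h1 : IsCoprime (p : ℤ) (1 - (p : ℤ) ^ ν * x * y) := by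
    obtain ⟨m, rfl⟩ : ∃ m, ν = m + 1 := ⟨ν - 1, by omega⟩
    exact ⟨(p : ℤ) ^ m * x * y, 1, by ring⟩
  obtain ⟨s, u, hsu⟩ := h1.pow_left (m := L)
  exact ⟨u, -s, by linear_combination hsu⟩

theorem hGr : StGr := by
  intro hGp hPl p hp a ν Fc Fb Hc Hb hν hF hG hQc hQb hcong
  have hp0 : p ≠ 0 := hp.out.ne_zero
  have A1 := fun x : ℤ => (hGp hPl p hp a ν (Fc x) x hν).1 (hF x)
  have A2 := fun y : ℤ => (hGp hPl p hp a ν (fun b => Fb y b + 4 * Hb y b) y hν).1 (hG y)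
  have A3 := fun x : ℤ => (hGp hPl p hp a ν (Hc x) x hν).2 (hQc x)
  have A4 := fun y : ℤ => (hGp hPl p hp a ν (Hb y) y hν).2 (hQb y)
  choose f Kf hfd hf using A1
  choose g Kg hgd hg using A2
  choose rc Kc hcd hc1 hc2 hc using A3
  choose rb Kb hbd hb1 hb2 hb using A4
  -- the points
  have pts : ∀ (L : ℕ) (x y : ℤ), ∃ c b : ℤ,
      (p : ℤ) ^ L ∣ c * (1 - (p : ℤ) ^ ν * x * y) - y ∧
      (p : ℤ) ^ L ∣ b * (1 - (p : ℤ) ^ ν * x * y) - x := by
    intro L x y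
    obtain ⟨u, t, ht⟩ := ex_inv p ν hν L x y
    exact ⟨u * y, u * x, ⟨t * y, by linear_combination y * ht⟩,
      ⟨t * x, by linear_combination x * ht⟩⟩
  have hw : ∀ x y : ℤ, ‖(1 - (p : ℚ_[p]) ^ ν * x * y) ^ a‖ ≤ 1 := by
    intro x y
    have h1 : (1 - (p : ℚ_[p]) ^ ν * x * y) = ((1 - (p : ℤ) ^ ν * x * y : ℤ) : ℚ_[p]) := by
      push_cast
      ring
    rw [norm_pow, h1]
    exact pow_le_one₀ (norm_nonneg _) (Padic.norm_int_le_one _)
  have sw : ∀ x y : ℤ, (1 - (p : ℚ_[p]) ^ ν * y * x) = (1 - (p : ℚ_[p]) ^ ν * x * y) := by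
    intro x y
    ring
  have B1 : ∀ x y : ℤ, (rc x y).eval (y : ℚ_[p]) = (rb y x).eval (x : ℚ_[p]) := by
    intro x y
    refine sub_eq_zero.1 (lim0 _ (Kc x + 1 + Kb y) fun L hL => ?_)
    obtain ⟨c, b, h1, h2⟩ := pts L x y
    have e1 := hc x L y c (by omega) (by rw [show (p : ℤ) ^ ν * y * x = p ^ ν * x * y by ring]; exact h1)
    have e2 := hb y L x b (by omega) h2
    have e3 := norm_dvd L _ (hcong L x y c b hL h1 h2).2
    rw [sw] at e1
    set w := (1 - (p : ℚ_[p]) ^ ν * x * y) ^ a with hwdef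
    have e4 : ‖w * ((Hc x c - Hb y b : ℤ_[p]) : ℚ_[p])‖ ≤ ((p : ℝ) ^ L)⁻¹ := by
      rw [norm_mul]
      calc ‖w‖ * ‖((Hc x c - Hb y b : ℤ_[p]) : ℚ_[p])‖ ≤ 1 * ((p : ℝ) ^ L)⁻¹ :=
            mul_le_mul (hw x y) e3 (norm_nonneg _) zero_le_one
        _ = _ := one_mul _
    have e5 : (rc x y).eval (y : ℚ_[p]) - (rb y x).eval (x : ℚ_[p]) =
        -(w * ((Hc x c : ℤ_[p]) : ℚ_[p]) - (rc x y).eval (y : ℚ_[p])) +
          w * ((Hc x c - Hb y b : ℤ_[p]) : ℚ_[p]) +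
          (w * ((Hb y b : ℤ_[p]) : ℚ_[p]) - (rb y x).eval (x : ℚ_[p])) := by
      rw [PadicInt.coe_sub]
      ring
    rw [e5]
    refine (norm_add_le _ _).trans ?_
    refine (add_le_add_left (norm_add_le _ _) _).trans ?_
    rw [norm_neg, add_mul, add_mul, one_mul]
    exact add_le_add (add_le_add e1 e4) e2
  have B2 : ∀ x y : ℤ, (f x).eval (y : ℚ_[p]) + 4 * (rb y x).eval (x : ℚ_[p]) =
      (g y).eval (x : ℚ_[p]) := by
    intro x y
    refine sub_eq_zero.1 (lim0 _ (Kf x + 1 + 4 * Kb y + Kg y) fun L hL => ?_)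
    obtain ⟨c, b, h1, h2⟩ := pts L x y
    have e1 := hf x L y c (by omega) (by rw [show (p : ℤ) ^ ν * y * x = p ^ ν * x * y by ring]; exact h1)
    have e2 := hb y L x b (by omega) h2
    have e3 := norm_dvd L _ (hcong L x y c b hL h1 h2).1
    have e6 := hg y L x b (by omega) h2
    rw [sw] at e1
    set w := (1 - (p : ℚ_[p]) ^ ν * x * y) ^ a with hwdef
    have e4 : ‖w * ((Fc x c - Fb y b : ℤ_[p]) : ℚ_[p])‖ ≤ ((p : ℝ) ^ L)⁻¹ := by
      rw [norm_mul]
      calc ‖w‖ * ‖((Fc x c - Fb y b : ℤ_[p]) : ℚ_[p])‖ ≤ 1 * ((p : ℝ) ^ L)⁻¹ :=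
            mul_le_mul (hw x y) e3 (norm_nonneg _) zero_le_one
        _ = _ := one_mul _
    have h4 : ‖(4 : ℚ_[p])‖ ≤ 4 := by
      have := Padic.norm_int_le_one (p := p) 4
      push_cast at this
      linarith
    have e7 : ‖4 * (w * ((Hb y b : ℤ_[p]) : ℚ_[p]) - (rb y x).eval (x : ℚ_[p]))‖ ≤
        4 * (Kb y * ((p : ℝ) ^ L)⁻¹) := by
      rw [norm_mul]
      exact mul_le_mul h4 e2 (norm_nonneg _) (by norm_num)
    have e5 : (f x).eval (y : ℚ_[p]) + 4 * (rb y x).eval (x : ℚ_[p]) - (g y).eval (x : ℚ_[p]) =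
        -(w * ((Fc x c : ℤ_[p]) : ℚ_[p]) - (f x).eval (y : ℚ_[p])) +
          w * ((Fc x c - Fb y b : ℤ_[p]) : ℚ_[p]) +
          -(4 * (w * ((Hb y b : ℤ_[p]) : ℚ_[p]) - (rb y x).eval (x : ℚ_[p]))) +
          (w * ((Fb y b + 4 * Hb y b : ℤ_[p]) : ℚ_[p]) - (g y).eval (x : ℚ_[p])) := by
      rw [PadicInt.coe_sub, PadicInt.coe_add, PadicInt.coe_mul]
      have : ((4 : ℤ_[p]) : ℚ_[p]) = 4 := by norm_cast
      rw [this]
      ring
    rw [e5]
    refine (norm_add_le _ _).trans ?_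
    refine (add_le_add_left (norm_add_le _ _) _).trans ?_
    refine (add_le_add_left (add_le_add_left (norm_add_le _ _) _) _).trans ?_
    rw [norm_neg, norm_neg, add_mul, add_mul, add_mul, one_mul, mul_assoc]
    exact add_le_add (add_le_add (add_le_add e1 e4) e7) e6
  -- the function h
  set h : ℤ → ℤ → ℚ_[p] := fun x y => (rc x y).eval (y : ℚ_[p]) with hh
  have hQy : ∀ x : ℤ, IsQ p (h x) := fun x => ⟨rc x, hc1 x, hc2 x, fun y => rfl⟩
  have hQx : ∀ y : ℤ, IsQ p (fun x => h x y) := fun y => ⟨rb y, hb1 y, hb2 y, fun x => B1 x y⟩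
  have hD : ∀ x y : ℤ, ∑ j ∈ Finset.range (a + 2),
      ((-1 : ℤ) ^ j * ((a + 1).choose j : ℤ)) • h x (y + j) = 0 := by
    intro x y
    have q1 : IsQ p (fun x => ∑ j ∈ Finset.range (a + 2),
        ((-1 : ℤ) ^ j * ((a + 1).choose j : ℤ)) • h x (y + j)) :=
      IsQ.sum _ fun j _ => (hQx (y + j)).smul _
    have q2 : IsP (fun x => (4 : ℤ) • ∑ j ∈ Finset.range (a + 2),
        ((-1 : ℤ) ^ j * ((a + 1).choose j : ℤ)) • h x (y + j)) := by
      have q3 : IsP (fun x => ∑ j ∈ Finset.range (a + 2),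
          ((-1 : ℤ) ^ j * ((a + 1).choose j : ℤ)) • (g (y + j)).eval (x : ℚ_[p])) :=
        IsP.sum _ fun j _ => IsP.smul ⟨g (y + j), fun b => rfl⟩ _
      obtain ⟨F, hF⟩ := q3
      refine ⟨F, fun x => ?_⟩
      rw [← hF x]
      beta_reduce
      rw [Finset.smul_sum]
      have q4 := diff_poly a (f x) (hfd x) (y : ℚ_[p])
      rw [← add_zero (∑ j ∈ Finset.range (a + 2), (4 : ℤ) •
        ((-1 : ℤ) ^ j * ((a + 1).choose j : ℤ)) • h x (y + j)), ← q4, ← Finset.sum_add_distrib]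
      refine Finset.sum_congr rfl fun j _ => ?_
      rw [smul_comm, ← smul_add]
      congr 1
      have q5 : (f x).eval (((y + j : ℤ)) : ℚ_[p]) + 4 * h x (y + j) =
          (g (y + j)).eval (x : ℚ_[p]) := by
        rw [← B2 x (y + j), ← B1 x (y + j)]
      rw [← q5, zsmul_eq_mul, Int.cast_add, Int.cast_natCast, Int.cast_ofNat, add_comm]
    have q6 := zero_of hp0 q2 (q1.smul 4) x
    simp only [zsmul_eq_mul] at q6 ⊢
    rcases mul_eq_zero.1 q6 with h6 | h6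
    · norm_num at h6
    · exact h6
  have h0 : h 0 0 = 0 := by
    obtain ⟨F, -, hF⟩ := newton a (h 0) (hD 0)
    exact zero_of hp0 ⟨F, hF⟩ (hQy 0) 0
  have hfin : ((Hc 0 0 : ℤ_[p]) : ℚ_[p]) = 0 := by
    refine lim0 _ (Kc 0) fun L hL => ?_
    have e1 := hc 0 L 0 0 (by omega) (by simp)
    simp only [hh] at h0
    rw [h0] at e1
    simpa using e1
  exact PadicInt.ext (by rw [hfin, PadicInt.coe_zero])

end Pool.Agent.Helper2.WK
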