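import Pool.Agent.Helper28.WK.StB

/-!
# Project WK, module Pl1: functions killed by a difference are polynomials
-/

set_option autoImplicit false

open Pool.Agent.Helper14.CV Pool.Agent.Helper28.WK

namespace Pool.Agent.Helper2.WK

/-- The `(a+1)`-st difference of a polynomial of degree `≤ a` vanishes. -/
theorem diff_poly {K : Type} [Field K] (a : ℕ) (f : Polynomial K) (hf : f.natDegree ≤ a) (x : K) :
    ∑ j ∈ Finset.range (a + 2), ((-1 : ℤ) ^ j * ((a + 1).choose j : ℤ)) • f.eval (x + (j : K)) =
      0 := by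
  have h1 := congrFun (Polynomial.fwdDiff_iter_eq_zero_of_degree_lt (P := f) (n := a + 1)
    (by omega)) x
  rw [fwdDiff_iter_eq_sum_shift] at h1
  have h2 : ((-1 : ℤ) ^ (a + 1)) • (∑ k ∈ Finset.range (a + 1 + 1),
      ((-1 : ℤ) ^ (a + 1 - k) * ((a + 1).choose k : ℤ)) • f.eval (x + k • (1 : K))) = 0 := by
    rw [h1]; simp
  rw [Finset.smul_sum] at h2
  rw [← h2]
  refine Finset.sum_congr rfl fun j hj => ?_
  have hj' : j ≤ a + 1 := by
    have := Finset.mem_range.1 hj
    omega
  rw [smul_smul, nsmul_eq_mul, mul_one, ← mul_assoc, ← pow_add]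
  congr 2
  have : a + 1 + (a + 1 - j) = j + 2 * (a + 1 - j) := by omega
  rw [this, pow_add, pow_mul]
  simp

private theorem prop_up {K : Type} [Field K] (a : ℕ) (D : ℤ → K)
    (h : ∀ b : ℤ, ∑ j ∈ Finset.range (a + 2),
      ((-1 : ℤ) ^ j * ((a + 1).choose j : ℤ)) • D (b + j) = 0) (b : ℤ)
    (h0 : ∀ i : ℕ, i < a + 1 → D (b + i) = 0) : D (b + (a + 1 : ℕ)) = 0 := by
  have h1 := h b
  rw [Finset.sum_range_succ, Finset.sum_eq_zero] at h1
  · simp only [Nat.choose_self, zero_add] at h1
    rcases neg_one_pow_eq_or ℤ (a + 1) with h2 | h2 <;> rw [h2] at h1 <;> simpa using h1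
  · intro j hj
    rw [h0 j (Finset.mem_range.1 hj), smul_zero]

private theorem prop_down {K : Type} [Field K] (a : ℕ) (D : ℤ → K)
    (h : ∀ b : ℤ, ∑ j ∈ Finset.range (a + 2),
      ((-1 : ℤ) ^ j * ((a + 1).choose j : ℤ)) • D (b + j) = 0) (b : ℤ)
    (h0 : ∀ i : ℕ, i < a + 1 → D (b + 1 + i) = 0) : D b = 0 := by
  have h1 := h b
  rw [Finset.sum_range_succ', Finset.sum_eq_zero] at h1
  · simpa using h1
  · intro j hj
    have := h0 j (Finset.mem_range.1 hj)
    have e : b + ((j + 1 : ℕ) : ℤ) = b + 1 + j := by push_cast; ring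
    rw [e, this, smul_zero]

/-- A function on the integers killed by the `(a+1)`-st difference is a polynomial. -/
theorem newton {K : Type} [Field K] [CharZero K] (a : ℕ) (P : ℤ → K)
    (h : ∀ b : ℤ, ∑ j ∈ Finset.range (a + 2),
      ((-1 : ℤ) ^ j * ((a + 1).choose j : ℤ)) • P (b + j) = 0) :
    ∃ f : Polynomial K, f.natDegree ≤ a ∧ ∀ b : ℤ, P b = f.eval (b : K) := by
  classical
  have hinj : Set.InjOn (fun i : ℕ => (i : K)) (Finset.range (a + 1) : Finset ℕ) :=
    fun x _ y _ hxy => Nat.cast_injective hxy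
  set f := Lagrange.interpolate (Finset.range (a + 1)) (fun i : ℕ => (i : K))
    (fun i : ℕ => P i) with hf
  have hdeg : f.natDegree ≤ a := by
    have h1 := Lagrange.degree_interpolate_lt (r := fun i : ℕ => P i) hinj
    rw [Finset.card_range] at h1
    rw [← hf] at h1
    by_cases h0 : f = 0
    · rw [h0]; simp
    · rw [Polynomial.degree_eq_natDegree h0] at h1
      have := Nat.cast_lt.1 h1
      omega
  refine ⟨f, hdeg, ?_⟩
  set D : ℤ → K := fun b => P b - f.eval (b : K) with hD
  have hDk : ∀ b : ℤ, ∑ j ∈ Finset.range (a + 2),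
      ((-1 : ℤ) ^ j * ((a + 1).choose j : ℤ)) • D (b + j) = 0 := by
    intro b
    simp only [hD, smul_sub, Finset.sum_sub_distrib]
    rw [h b, zero_sub, neg_eq_zero]
    have := diff_poly a f hdeg (b : K)
    push_cast
    exact this
  have h0 : ∀ i : ℕ, i < a + 1 → D (0 + i) = 0 := by
    intro i hi
    simp only [hD, zero_add]
    have := Lagrange.eval_interpolate_at_node (r := fun i : ℕ => P i) hinj (Finset.mem_range.2 hi)
    rw [← hf] at this
    rw [Int.cast_natCast, this, sub_self]
  have hall : ∀ b : ℤ, ∀ i : ℕ, i < a + 1 → D (b + i) = 0 := by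
    intro b
    induction b using Int.induction_on with
    | zero => exact h0
    | succ n ih =>
      intro i hi
      by_cases hi' : i + 1 < a + 1
      · have := ih (i + 1) hi'
        push_cast at this
        rw [show ((n : ℤ) + 1 + i) = n + (i + 1) by ring]
        exact this
      · have hia : i = a := by omega
        have := prop_up a D hDk n ih
        push_cast at this
        rw [hia, show ((n : ℤ) + 1 + a) = n + (a + 1) by ring]
        exact this
    | pred n ih =>
      intro i hi
      cases i with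
      | zero =>
        have := prop_down a D hDk (-(n : ℤ) - 1) (fun i hi => by
          rw [show (-(n : ℤ) - 1 + 1 + i) = -n + i by ring]; exact ih i hi)
        simpa using this
      | succ i =>
        rw [show (-(n : ℤ) - 1 + ((i + 1 : ℕ) : ℤ)) = -n + i by push_cast; ring]
        exact ih i (by omega)
  intro b
  have := hall b 0 (by omega)
  simp only [hD, Nat.cast_zero, add_zero] at this
  exact sub_eq_zero.1 this

theorem hPl1 : StPl1 := by
  intro p _ a P hP
  refine newton a (fun b => ((P b : ℤ_[p]) : ℚ_[p])) ?_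
  intro b
  have h1 := congrArg (PadicInt.Coe.ringHom (p := p)) (hP b)
  rw [map_sum, map_zero] at h1
  rw [← h1]
  refine Finset.sum_congr rfl fun j _ => ?_
  rw [map_zsmul]
  rfl

end Pool.Agent.Helper2.WK
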